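import Mathlib

/-!
# Changing the density of the measure does not change the `L^p` space
-/

set_option autoImplicit false

namespace Pool.Agent.V11300.ELP

open MeasureTheory ENNReal NNReal

variable {Z : Type*} [MeasurableSpace Z]

theorem enorm_pow (w : Z → ℝ) (h0 : ∀ z, 0 < w z) (q : ℝ) (hq : 0 < q) (f : Z → ℝ) (z : Z) :
    ‖w z ^ (1 / q) * f z‖ₑ ^ q = ENNReal.ofReal (w z) * ‖f z‖ₑ ^ q := by
  rw [enorm_mul, ENNReal.mul_rpow_of_nonneg _ _ hq.le]
  congr 1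
  rw [Real.enorm_of_nonneg (Real.rpow_nonneg (h0 z).le _),
    ENNReal.ofReal_rpow_of_pos (Real.rpow_pos_of_pos (h0 z) _), ← Real.rpow_mul (h0 z).le,
    one_div_mul_cancel hq.ne', Real.rpow_one]

theorem norm_eq (μ : Measure Z) (w : Z → ℝ) (hw : Measurable w) (h0 : ∀ z, 0 < w z) (p : ℝ≥0∞)
    (h1 : p ≠ 0) (hp : p ≠ ∞) (f : Z → ℝ) :
    eLpNorm (fun z => w z ^ (1 / p.toReal) * f z) p μ
      = eLpNorm f p (μ.withDensity (fun z => ENNReal.ofReal (w z))) := by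
  have hq : 0 < p.toReal := ENNReal.toReal_pos h1 hp
  rw [eLpNorm_eq_lintegral_rpow_enorm_toReal h1 hp, eLpNorm_eq_lintegral_rpow_enorm_toReal h1 hp,
    lintegral_withDensity_eq_lintegral_mul_non_measurable μ (hw.ennreal_ofReal)
      (Filter.Eventually.of_forall fun z => ENNReal.ofReal_lt_top)]
  congr 1
  refine lintegral_congr fun z => ?_
  rw [enorm_pow w h0 _ hq]
  rfl

theorem dens {Z : Type*} [MeasurableSpace Z] (μ : Measure Z) [SigmaFinite μ] (w : Z → ℝ)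
    (hw : Measurable w) (h0 : ∀ z, 0 < w z) (p : ℝ≥0∞) [Fact (1 ≤ p)] (hp : p ≠ ∞) :
    Nonempty (Lp ℝ p (μ.withDensity (fun z => ENNReal.ofReal (w z))) ≃ₗᵢ[ℝ] Lp ℝ p μ) := by
  have h1 : p ≠ 0 := (lt_of_lt_of_le zero_lt_one (Fact.out : (1 : ℝ≥0∞) ≤ p)).ne'
  have hq : 0 < p.toReal := ENNReal.toReal_pos h1 hp
  set ν : Measure Z := μ.withDensity (fun z => ENNReal.ofReal (w z)) with hν
  have hνμ : ν ≪ μ := withDensity_absolutelyContinuous _ _
  have hμν : μ ≪ ν := withDensity_absolutelyContinuous' hw.ennreal_ofReal.aemeasurable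
    (Filter.Eventually.of_forall fun z => by
      simpa using h0 z)
  have hm : Measurable fun z => w z ^ (1 / p.toReal) := hw.pow_const _
  have hmi : Measurable fun z => (w z ^ (1 / p.toReal))⁻¹ := hm.inv
  have hpos : ∀ z, 0 < w z ^ (1 / p.toReal) := fun z => Real.rpow_pos_of_pos (h0 z) _
  have hmem : ∀ f : Lp ℝ p ν, MemLp (fun z => w z ^ (1 / p.toReal) * (f : Z → ℝ) z) p μ := by
    intro f
    refine ⟨hm.aestronglyMeasurable.mul ((Lp.aestronglyMeasurable f).mono_ac hμν), ?_⟩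
    rw [norm_eq μ w hw h0 p h1 hp]
    exact Lp.eLpNorm_lt_top f
  let T : Lp ℝ p ν →ₗ[ℝ] Lp ℝ p μ :=
    { toFun := fun f => (hmem f).toLp _
      map_add' := by
        intro f g
        refine Lp.ext ?_
        filter_upwards [(hmem (f + g)).coeFn_toLp, (hmem f).coeFn_toLp, (hmem g).coeFn_toLp,
          Lp.coeFn_add ((hmem f).toLp _) ((hmem g).toLp _), hμν (Lp.coeFn_add f g)]
          with z a1 a2 a3 a4 a5
        rw [a1, a4, Pi.add_apply, a2, a3, a5, Pi.add_apply, mul_add]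
      map_smul' := by
        intro c f
        refine Lp.ext ?_
        filter_upwards [(hmem (c • f)).coeFn_toLp, (hmem f).coeFn_toLp,
          Lp.coeFn_smul c ((hmem f).toLp _), hμν (Lp.coeFn_smul c f)]
          with z a1 a2 a4 a5
        rw [RingHom.id_apply, a1, a4, Pi.smul_apply, a2, a5, Pi.smul_apply, smul_eq_mul,
          smul_eq_mul]
        ring }
  have hT : ∀ f, ‖T f‖ = ‖f‖ := by
    intro f
    show ‖(hmem f).toLp _‖ = ‖f‖
    rw [Lp.norm_toLp, norm_eq μ w hw h0 p h1 hp, Lp.norm_def]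
  let TI : Lp ℝ p ν →ₗᵢ[ℝ] Lp ℝ p μ := ⟨T, hT⟩
  refine ⟨LinearIsometryEquiv.ofSurjective TI ?_⟩
  intro g
  have hg : MemLp (fun z => (w z ^ (1 / p.toReal))⁻¹ * (g : Z → ℝ) z) p ν := by
    refine ⟨hmi.aestronglyMeasurable.mul ((Lp.aestronglyMeasurable g).mono_ac hνμ), ?_⟩
    rw [hν, ← norm_eq μ w hw h0 p h1 hp]
    have : (fun z => w z ^ (1 / p.toReal) * ((w z ^ (1 / p.toReal))⁻¹ * (g : Z → ℝ) z))
        = (g : Z → ℝ) := by
      funext z
      rw [← mul_assoc, mul_inv_cancel₀ (hpos z).ne', one_mul]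
    rw [this]
    exact Lp.eLpNorm_lt_top g
  refine ⟨hg.toLp _, ?_⟩
  show (hmem (hg.toLp _)).toLp _ = g
  refine Lp.ext ?_
  filter_upwards [(hmem (hg.toLp _)).coeFn_toLp, hμν hg.coeFn_toLp] with z a1 a2
  rw [a1, a2, ← mul_assoc, mul_inv_cancel₀ (hpos z).ne', one_mul]

end Pool.Agent.V11300.ELP
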